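import Pool.Agent.Lib_MP_55d5ef_geo.GDefs

/-!
# `MP_55d5ef_gt`, level A: the explicit group

`Gam` is generated by the 40 side maps `side i` of the Ford domain (a tiling of the cusp section by
40 lattice cells, glued in pairs by `pairs`) and the three translations generating `Λ'`.
-/

open Matrix Lib_MP_55d5ef_geo

namespace Lib_MP_55d5ef

theorem TM_mul (x y z x' y' z' : ℤ) :
    TM x y z * TM x' y' z' = TM (x + x') (y + y') (z + z') := by
  ext i j
  fin_cases i <;> fin_cases j <;>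
    simp [TM, qK, Matrix.mul_apply, Fin.sum_univ_succ] <;> ring

theorem TM_zero : TM 0 0 0 = (1 : Matrix (Fin 5) (Fin 5) ℤ) := by
  ext i j
  fin_cases i <;> fin_cases j <;> simp [TM, qK]

/-- the translation by `(x, y, z)` as a unit -/
def TG (x y z : ℤ) : GL (Fin 5) ℤ where
  val := TM x y z
  inv := TM (-x) (-y) (-z)
  val_inv := by rw [TM_mul, ← TM_zero]; congr 1 <;> ring
  inv_val := by rw [TM_mul, ← TM_zero]; congr 1 <;> ring

/-- the matrix exchanging the two isotropic basis vectors -/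
def JM : Matrix (Fin 5) (Fin 5) ℤ :=
  !![0, 0, 0, 0, 1; 0, 1, 0, 0, 0; 0, 0, 1, 0, 0; 0, 0, 0, 1, 0; 1, 0, 0, 0, 0]

/-- the reflection of `K` in `(1,0,0)` for `k = 3`, in `(1,1,0)` for `k = 4`, in `(0,1,0)` else -/
def SM (k : ℕ) : Matrix (Fin 5) (Fin 5) ℤ :=
  if k = 3 then !![1, 0, 0, 0, 0; 0, -1, 1, 1, 0; 0, 0, 1, 0, 0; 0, 0, 0, 1, 0; 0, 0, 0, 0, 1]
  else if k = 4 then
    !![1, 0, 0, 0, 0; 0, 0, -1, 1, 0; 0, -1, 0, 1, 0; 0, 0, 0, 1, 0; 0, 0, 0, 0, 1]
  else !![1, 0, 0, 0, 0; 0, 1, 0, 0, 0; 0, 1, -1, 0, 0; 0, 0, 0, 1, 0; 0, 0, 0, 0, 1]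

theorem JM_mul : JM * JM = 1 := by
  ext i j
  fin_cases i <;> fin_cases j <;> simp [JM, Matrix.mul_apply, Fin.sum_univ_succ]

theorem SM_mul (k : ℕ) : SM k * SM k = 1 := by
  unfold SM
  split_ifs <;>
  · ext i j
    fin_cases i <;> fin_cases j <;> simp [Matrix.mul_apply, Fin.sum_univ_succ]

/-- `JM` as a unit -/
def JG : GL (Fin 5) ℤ := ⟨JM, JM, JM_mul, JM_mul⟩

/-- `SM k` as a unit -/
def SG (k : ℕ) : GL (Fin 5) ℤ := ⟨SM k, SM k, SM_mul k, SM_mul k⟩

/-- side `i` is glued to side `(pairs i).1` with the reflection of index `(pairs i).2` -/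
def pairs : List (ℕ × ℕ) :=
  [(11,3), (13,11), (35,11), (16,4), (22,3), (31,3), (20,3), (14,4), (27,11), (17,11),
   (19,3), (0,3), (24,11), (1,11), (7,4), (21,4), (3,4), (9,11), (38,11), (10,3),
   (6,3), (15,4), (4,3), (26,3), (12,11), (32,3), (23,3), (8,11), (33,4), (34,4),
   (37,3), (5,3), (25,3), (28,4), (29,4), (2,11), (39,3), (30,3), (18,11), (36,3)]

/-- first coordinate of the representative `(i / 20, 0, i % 20)` of the class `i < 40` of `K / Λ'` -/
def repx (i : ℕ) : ℤ := ((i / 20 : ℕ) : ℤ)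

/-- third coordinate of the representative of the class `i` -/
def repz (i : ℕ) : ℤ := ((i % 20 : ℕ) : ℤ)

/-- the side map of the Ford domain at side `i`: it maps the sphere over the representative of `i`
to the sphere over the representative of its partner -/
def side (i : ℕ) : GL (Fin 5) ℤ :=
  TG (repx (pairs.getD i (0, 0)).1) 0 (repz (pairs.getD i (0, 0)).1) *
    SG (pairs.getD i (0, 0)).2 * JG * (TG (repx i) 0 (repz i))⁻¹

/-- the group: generated by the 40 side maps and the translations by `Λ'` -/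
def Gam : Subgroup (GL (Fin 5) ℤ) :=
  Subgroup.closure ({g | ∃ i < 40, g = side i} ∪ {TG 2 0 12, TG 0 1 11, TG 0 0 20})

/-- the slope: the translation by `(2, -1, 1)` -/
def muG : GL (Fin 5) ℤ := TG 2 (-1) 1

theorem side_mem (i : ℕ) (hi : i < 40) : side i ∈ Gam :=
  Subgroup.subset_closure (Or.inl ⟨i, hi, rfl⟩)

@[simp] theorem TG_val (x y z : ℤ) : (TG x y z).1 = TM x y z := rfl

theorem TG_mul (x y z x' y' z' : ℤ) : TG x y z * TG x' y' z' = TG (x + x') (y + y') (z + z') :=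
  Units.ext (TM_mul x y z x' y' z')

theorem TG_inv (x y z : ℤ) : (TG x y z)⁻¹ = TG (-x) (-y) (-z) := Units.ext rfl

theorem TG_zero : TG 0 0 0 = 1 := Units.ext TM_zero

/-- translations as a homomorphism -/
def THom : Multiplicative (ℤ × ℤ × ℤ) →* GL (Fin 5) ℤ where
  toFun v := TG v.toAdd.1 v.toAdd.2.1 v.toAdd.2.2
  map_one' := TG_zero
  map_mul' _ _ := (TG_mul _ _ _ _ _ _).symm

theorem TG_zpow (x y z n : ℤ) : (TG x y z) ^ n = TG (n * x) (n * y) (n * z) := by
  have h := map_zpow THom (Multiplicative.ofAdd (x, y, z)) n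
  have h2 : THom (Multiplicative.ofAdd (x, y, z) ^ n) = TG (n * x) (n * y) (n * z) := by
    rw [← ofAdd_zsmul]
    simp [THom]
  rw [h2] at h
  exact h.symm

/-- the translations by `Λ'` belong to the group -/
theorem TG_mem {x y z : ℤ} (h : InLam x y z) : TG x y z ∈ Gam := by
  obtain ⟨⟨a, ha⟩, ⟨c, hc⟩⟩ := h
  have h1 : TG 2 0 12 ∈ Gam := Subgroup.subset_closure (Or.inr (by simp))
  have h2 : TG 0 1 11 ∈ Gam := Subgroup.subset_closure (Or.inr (by simp))
  have h3 : TG 0 0 20 ∈ Gam := Subgroup.subset_closure (Or.inr (by simp))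
  have h4 : TG x y z = (TG 2 0 12) ^ a * (TG 0 1 11) ^ y * (TG 0 0 20) ^ c := by
    rw [TG_zpow, TG_zpow, TG_zpow, TG_mul, TG_mul]
    congr 1 <;> linarith
  rw [h4]
  exact mul_mem (mul_mem (zpow_mem h1 a) (zpow_mem h2 y)) (zpow_mem h3 c)

theorem muG_mem : muG ∈ Gam := TG_mem ⟨⟨1, by norm_num⟩, ⟨0, by norm_num⟩⟩

end Lib_MP_55d5ef
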