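import Pool.Agent.Lib_MP_55d5ef.NCMat
import Mathlib.GroupTheory.QuotientGroup.Basic

/-!
# The cusp slope `μ` normally generates the group

`X n` (`n < 23`): the three cusp translations and the 20 side maps in `GL (Fin 5) ℤ`.
`normalClosure_eq_top`: for every subgroup generated by them, the normal closure of
`μ = X 0 * (X 1)⁻¹` is everything.
-/

namespace Pool.Agent.Lib_MP_55d5ef.NC

open Pool.Agent.Lib_MP_55d5ef

theorem tab_inv (l : ℕ) (hl : l < 46) :
    (gTab.getD l M5.one).mul (gTab.getD (linv l) M5.one) = M5.one := by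
  have h := inv_ok
  rw [List.all_eq_true] at h
  exact of_decide_eq_true (h l (List.mem_range.mpr hl))

theorem tab_mul_inv (l : ℕ) (hl : l < 46) :
    (gTab.getD l M5.one).toMat * (gTab.getD (linv l) M5.one).toMat = 1 := by
  rw [← M5.toMat_mul, tab_inv l hl, M5.toMat_one]

theorem linv_even (n : ℕ) : linv (2 * n) = 2 * n + 1 := by
  unfold linv
  rw [show 2 * n % 2 = 0 by omega]
  rfl

theorem linv_odd (n : ℕ) : linv (2 * n + 1) = 2 * n := by
  unfold linv
  rw [show (2 * n + 1) % 2 = 1 by omega]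
  rfl

/-- the generators -/
noncomputable def X (n : ℕ) : GL (Fin 5) ℤ :=
  if h : n < 23 then
    { val := (gTab.getD (2 * n) M5.one).toMat
      inv := (gTab.getD (2 * n + 1) M5.one).toMat
      val_inv := by
        have := tab_mul_inv (2 * n) (by omega)
        rwa [linv_even] at this
      inv_val := by
        have := tab_mul_inv (2 * n + 1) (by omega)
        rwa [linv_odd] at this }
  else 1

theorem tab_length : gTab.length = 46 := by decide +kernel

theorem tab_big (l : ℕ) (hl : 46 ≤ l) : gTab.getD l M5.one = M5.one := by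
  rw [List.getD_eq_getElem?_getD, List.getElem?_eq_none (by rw [tab_length]; exact hl)]
  rfl

theorem X_val (n : ℕ) : (X n : Matrix (Fin 5) (Fin 5) ℤ) = (gTab.getD (2 * n) M5.one).toMat := by
  unfold X
  split_ifs with h
  · rfl
  · rw [tab_big _ (by omega), M5.toMat_one]
    rfl

theorem X_inv (n : ℕ) :
    ((X n)⁻¹ : GL (Fin 5) ℤ).val = (gTab.getD (2 * n + 1) M5.one).toMat := by
  unfold X
  split_ifs with h
  · rfl
  · rw [tab_big _ (by omega), M5.toMat_one]
    simp

theorem val_lval (l : ℕ) : (lval X l : GL (Fin 5) ℤ).val = (gTab.getD l M5.one).toMat := by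
  rcases Nat.mod_two_eq_zero_or_one l with h | h
  · rw [lval_even X h, X_val, show 2 * (l / 2) = l by omega]
  · rw [lval_odd X h, X_inv, show 2 * (l / 2) + 1 = l by omega]

theorem val_foldl (w : List ℕ) (A : M5) :
    (w.foldl (fun A l => A.mul (gTab.getD l M5.one)) A).toMat = A.toMat * (ev X w).val := by
  induction w generalizing A with
  | nil => simp
  | cons l w ih =>
    rw [List.foldl_cons, ih, M5.toMat_mul, ev_cons, Units.val_mul, val_lval, Matrix.mul_assoc]

theorem val_ev (w : List ℕ) : (ev X w).val = (wM w).toMat := by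
  unfold wM
  rw [val_foldl, M5.toMat_one, Matrix.one_mul]

theorem rel_holds (w : List ℕ) (hw : w ∈ rels) (h : w ≠ [0, 3]) : ev X w = 1 := by
  have h1 := rel_ok
  rw [List.all_eq_true] at h1
  have h2 := h1 w hw
  rw [Bool.or_eq_true] at h2
  rcases h2 with h2 | h2
  · exact absurd (by simpa using h2) h
  · apply Units.ext
    rw [val_ev, of_decide_eq_true h2, M5.toMat_one]
    rfl

theorem map_lval {G H : Type*} [Group G] [Group H] (f : G →* H) (x : ℕ → G) (l : ℕ) :
    f (lval x l) = lval (fun n => f (x n)) l := by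
  rcases Nat.mod_two_eq_zero_or_one l with h | h
  · rw [lval_even x h, lval_even _ h]
  · rw [lval_odd x h, lval_odd _ h, map_inv]

theorem map_ev {G H : Type*} [Group G] [Group H] (f : G →* H) (x : ℕ → G) (w : List ℕ) :
    f (ev x w) = ev (fun n => f (x n)) w := by
  induction w with
  | nil => simp
  | cons l w ih => rw [ev_cons, ev_cons, map_mul, ih, map_lval]

/-- the generators inside a subgroup that contains them -/
noncomputable def XG (Γ : Subgroup (GL (Fin 5) ℤ)) (h : ∀ n < 23, X n ∈ Γ) (n : ℕ) : Γ :=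
  if hn : n < 23 then ⟨X n, h n hn⟩ else 1

theorem XG_coe (Γ : Subgroup (GL (Fin 5) ℤ)) (h : ∀ n < 23, X n ∈ Γ) (n : ℕ) :
    ((XG Γ h n : Γ) : GL (Fin 5) ℤ) = X n := by
  unfold XG
  split_ifs with hn
  · rfl
  · unfold X
    rw [dif_neg hn]
    rfl

/-- Every generator lies in every normal subgroup that contains `μ`. -/
theorem gen_mem (Γ : Subgroup (GL (Fin 5) ℤ)) (h : ∀ n < 23, X n ∈ Γ) (N : Subgroup Γ)
    [N.Normal] (hμ : XG Γ h 0 * (XG Γ h 1)⁻¹ ∈ N) : ∀ n < 23, XG Γ h n ∈ N := by
  have key := trivial_of_run (G := Γ ⧸ N) (fun n => QuotientGroup.mk' N (XG Γ h n)) 23 rels cert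
    cert_ok ?_
  · intro n hn
    exact (QuotientGroup.eq_one_iff _).mp (key n hn)
  · intro w hw
    by_cases hw0 : w = [0, 3]
    · have h1 : lval (fun n => QuotientGroup.mk' N (XG Γ h n)) 3
          = (QuotientGroup.mk' N (XG Γ h 1))⁻¹ := lval_odd _ (by norm_num)
      have h0 : lval (fun n => QuotientGroup.mk' N (XG Γ h n)) 0
          = QuotientGroup.mk' N (XG Γ h 0) := lval_even _ (by norm_num)
      rw [hw0, ev_cons, ev_cons, ev_nil, mul_one, h0, h1, ← map_inv, ← map_mul]
      exact (QuotientGroup.eq_one_iff _).mpr hμ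
    · rw [← map_ev (QuotientGroup.mk' N) (XG Γ h)]
      have h2 : ev (XG Γ h) w = 1 := by
        apply Subtype.ext
        have h3 := map_ev Γ.subtype (XG Γ h) w
        have h4 : (fun n => Γ.subtype (XG Γ h n)) = X := by
          funext n
          exact XG_coe Γ h n
        rw [h4, rel_holds w hw hw0] at h3
        exact h3
      rw [h2, map_one]

/-- **The slope `μ` normally generates.** -/
theorem normalClosure_eq_top (Γ : Subgroup (GL (Fin 5) ℤ)) (h : ∀ n < 23, X n ∈ Γ)
    (hgen : Γ ≤ Subgroup.closure {g | ∃ n < 23, g = X n}) (μ : Γ)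
    (hμ : (μ : GL (Fin 5) ℤ) = X 0 * (X 1)⁻¹) : Subgroup.normalClosure {μ} = ⊤ := by
  have hμ' : μ = XG Γ h 0 * (XG Γ h 1)⁻¹ := by
    apply Subtype.ext
    rw [hμ, Subgroup.coe_mul, Subgroup.coe_inv, XG_coe, XG_coe]
  have hmem := gen_mem Γ h (Subgroup.normalClosure {μ})
    (by rw [← hμ']; exact Subgroup.subset_normalClosure (Set.mem_singleton _))
  rw [eq_top_iff]
  intro g _
  have hle : Subgroup.closure {g | ∃ n < 23, g = X n}
      ≤ (Subgroup.normalClosure {μ}).map Γ.subtype := by
    rw [Subgroup.closure_le]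
    rintro _ ⟨n, hn, rfl⟩
    exact ⟨XG Γ h n, hmem n hn, XG_coe Γ h n⟩
  obtain ⟨g', hg', hgg⟩ := hle (hgen g.2)
  have : g' = g := Subtype.ext hgg
  rwa [← this]

end Pool.Agent.Lib_MP_55d5ef.NC
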