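import Pool.Agent.Lib_MP_55d5ef.Data
import Pool.Agent.Lib_MP_55d5ef_geo.GBas
import Pool.Agent.Lib_MP_55d5ef.NCMain

/-!
# `MP_55d5ef_gt`, level A: first properties of `Gam`

isometries, forward cone, determinant one, neighbours of the cusp, normal closure of the slope.
-/

open Matrix Lib_MP_55d5ef_geo

namespace Lib_MP_55d5ef

theorem TM_mulVec (x y z : ℤ) (v : Fin 5 → ℤ) : TM x y z *ᵥ v =
    ![v 0 + (2 * x - y - z) * v 1 + (2 * y - x) * v 2 + (4 * z - x) * v 3 + qK x y z * v 4,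
      v 1 + x * v 4, v 2 + y * v 4, v 3 + z * v 4, v 4] := by
  funext i
  fin_cases i <;> simp [TM, Matrix.mulVec, dotProduct, Fin.sum_univ_succ] <;> ring

theorem JM_mulVec (v : Fin 5 → ℤ) : JM *ᵥ v = ![v 4, v 1, v 2, v 3, v 0] := by
  funext i
  fin_cases i <;> simp [JM, Matrix.mulVec, dotProduct, Fin.sum_univ_succ]

theorem SM_mulVec_zero (k : ℕ) (v : Fin 5 → ℤ) : (SM k *ᵥ v) 0 = v 0 := by
  unfold SM
  split_ifs <;> simp [Matrix.mulVec, dotProduct, Fin.sum_univ_succ]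

theorem SM_mulVec_four (k : ℕ) (v : Fin 5 → ℤ) : (SM k *ᵥ v) 4 = v 4 := by
  unfold SM
  split_ifs <;> simp [Matrix.mulVec, dotProduct, Fin.sum_univ_succ]

/-- preserves the integral form -/
def IsIso (g : GL (Fin 5) ℤ) : Prop := ∀ v w : Fin 5 → ℤ, bf (g.1 *ᵥ v) (g.1 *ᵥ w) = bf v w

/-- preserves the forward cone -/
def IsFwd (g : GL (Fin 5) ℤ) : Prop :=
  ∀ v : Fin 5 → ℤ, bf v v < 0 → 0 < v 4 → 0 < (g.1 *ᵥ v) 4

theorem iso_TG (x y z : ℤ) : IsIso (TG x y z) := by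
  intro v w
  rw [TG_val, TM_mulVec, TM_mulVec]
  simp [bf, qK]
  ring

theorem iso_JG : IsIso JG := by
  intro v w
  change bf (JM *ᵥ v) (JM *ᵥ w) = _
  rw [JM_mulVec, JM_mulVec]
  simp [bf]
  ring

theorem iso_SG (k : ℕ) : IsIso (SG k) := by
  intro v w
  change bf (SM k *ᵥ v) (SM k *ᵥ w) = _
  unfold SM
  split_ifs <;>
  · simp [bf, Matrix.mulVec, dotProduct, Fin.sum_univ_succ]
    ring

theorem fwd_TG (x y z : ℤ) : IsFwd (TG x y z) := by
  intro v _ h
  rw [TG_val, TM_mulVec]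
  simpa using h

theorem fwd_SG (k : ℕ) : IsFwd (SG k) := by
  intro v _ h
  change 0 < (SM k *ᵥ v) 4
  rwa [SM_mulVec_four]

/-- the form of `K` is nonnegative on integers -/
theorem qK_nonneg_int (x y z : ℤ) : 0 ≤ qK x y z := by
  have h : 2 * qK x y z = (x - y) ^ 2 + (x - z) ^ 2 + y ^ 2 + 3 * z ^ 2 := by
    simp only [qK]; ring
  have h2 : 0 ≤ (x - y) ^ 2 + (x - z) ^ 2 + y ^ 2 + 3 * z ^ 2 := by positivity
  linarith

theorem fwd_JG : IsFwd JG := by
  intro v h1 h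
  change 0 < (JM *ᵥ v) 4
  rw [JM_mulVec]
  change 0 < v 0
  rw [bf_self] at h1
  have h2 := qK_nonneg_int (v 1) (v 2) (v 3)
  have h3 : 0 < v 0 * v 4 := by linarith
  exact (mul_pos_iff_of_pos_right h).mp h3

theorem iso_one : IsIso 1 := by
  intro v w
  simp

theorem iso_mul {g h : GL (Fin 5) ℤ} (hg : IsIso g) (hh : IsIso h) : IsIso (g * h) := by
  intro v w
  rw [Units.val_mul, ← Matrix.mulVec_mulVec, ← Matrix.mulVec_mulVec, hg, hh]

theorem mulVec_inv_cancel (g : GL (Fin 5) ℤ) (v : Fin 5 → ℤ) :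
    g.1 *ᵥ ((g⁻¹ : GL (Fin 5) ℤ).1 *ᵥ v) = v := by
  rw [Matrix.mulVec_mulVec, ← Units.val_mul, mul_inv_cancel, Units.val_one, Matrix.one_mulVec]

theorem inv_mulVec_cancel (g : GL (Fin 5) ℤ) (v : Fin 5 → ℤ) :
    (g⁻¹ : GL (Fin 5) ℤ).1 *ᵥ (g.1 *ᵥ v) = v := by
  rw [Matrix.mulVec_mulVec, ← Units.val_mul, inv_mul_cancel, Units.val_one, Matrix.one_mulVec]

theorem iso_inv {g : GL (Fin 5) ℤ} (hg : IsIso g) : IsIso g⁻¹ := by
  intro v w
  rw [← hg, mulVec_inv_cancel, mulVec_inv_cancel]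

theorem bf_neg_four_ne {v : Fin 5 → ℤ} (h : bf v v < 0) : v 4 ≠ 0 := by
  intro h4
  rw [bf_self, h4] at h
  have h2 := qK_nonneg_int (v 1) (v 2) (v 3)
  linarith

theorem fwd_inv {g : GL (Fin 5) ℤ} (hg : IsIso g) (hf : IsFwd g) : IsFwd g⁻¹ := by
  intro v h1 h4
  set w := (g⁻¹ : GL (Fin 5) ℤ).1 *ᵥ v with hw
  have hw1 : bf w w < 0 := by rw [hw, iso_inv hg]; exact h1
  have hgw : g.1 *ᵥ w = v := mulVec_inv_cancel g v
  rcases lt_trichotomy (w 4) 0 with h | h | h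
  · exfalso
    have h2 := hf (-w) (by simpa [bf] using hw1) (by simpa using h)
    rw [Matrix.mulVec_neg, hgw] at h2
    simp only [Pi.neg_apply] at h2
    linarith
  · exact absurd h (bf_neg_four_ne hw1)
  · exact h

/-- the group of integral isometries that preserve the forward cone -/
def OG : Subgroup (GL (Fin 5) ℤ) where
  carrier := {g | IsIso g ∧ IsFwd g}
  one_mem' := ⟨iso_one, fun v _ h => by simpa using h⟩
  mul_mem' := by
    rintro g h ⟨hg, hg'⟩ ⟨hh, hh'⟩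
    refine ⟨iso_mul hg hh, fun v h1 h4 => ?_⟩
    rw [Units.val_mul, ← Matrix.mulVec_mulVec]
    exact hg' _ (by rw [hh]; exact h1) (hh' v h1 h4)
  inv_mem' := by
    rintro g ⟨hg, hg'⟩
    exact ⟨iso_inv hg, fwd_inv hg hg'⟩

theorem TG_mem_OG (x y z : ℤ) : TG x y z ∈ OG := ⟨iso_TG x y z, fwd_TG x y z⟩
theorem SG_mem_OG (k : ℕ) : SG k ∈ OG := ⟨iso_SG k, fwd_SG k⟩
theorem JG_mem_OG : JG ∈ OG := ⟨iso_JG, fwd_JG⟩

theorem side_mem_OG (i : ℕ) : side i ∈ OG :=
  mul_mem (mul_mem (mul_mem (TG_mem_OG _ _ _) (SG_mem_OG _)) JG_mem_OG) (inv_mem (TG_mem_OG _ _ _))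

theorem Gam_le_OG : Gam ≤ OG := by
  unfold Gam
  rw [Subgroup.closure_le]
  rintro g (⟨i, _, rfl⟩ | h)
  · exact side_mem_OG i
  · rcases h with h | h | h <;> rw [h] <;> exact TG_mem_OG _ _ _

theorem Gam_isom : ∀ g ∈ Gam, ∀ v w : Fin 5 → ℤ, bf (g.1 *ᵥ v) (g.1 *ᵥ w) = bf v w :=
  fun _ hg => (Gam_le_OG hg).1

theorem Gam_fwd : ∀ g ∈ Gam, 0 < (g.1 *ᵥ p5) 4 :=
  fun g hg => (Gam_le_OG hg).2 p5 (by simp [bf, p5]) (by simp [p5])

/-! ### determinants -/

theorem det_TM (x y z : ℤ) : (TM x y z : Matrix (Fin 5) (Fin 5) ℤ).det = 1 := by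
  have h : (TM x y z : Matrix (Fin 5) (Fin 5) ℤ).BlockTriangular id := by
    intro i j hij
    fin_cases i <;> fin_cases j <;> simp_all [TM]
  rw [Matrix.det_of_upperTriangular h, Fin.prod_univ_five]
  simp [TM]

theorem det_JM : JM.det = -1 := by decide +kernel

theorem det_SM (k : ℕ) : (SM k).det = -1 := by
  unfold SM
  split_ifs <;> decide +kernel

theorem det_side (i : ℕ) : (side i).1.det = 1 := by
  have h : (side i).1 = TM (repx (pairs.getD i (0, 0)).1) 0 (repz (pairs.getD i (0, 0)).1) *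
    SM (pairs.getD i (0, 0)).2 * JM * TM (-repx i) (-0) (-repz i) := rfl
  rw [h, Matrix.det_mul, Matrix.det_mul, Matrix.det_mul, det_TM, det_TM, det_JM, det_SM]
  norm_num

theorem Gam_detone : ∀ g ∈ Gam, g.1.det = 1 := by
  intro g hg
  unfold Gam at hg
  induction hg using Subgroup.closure_induction with
  | mem x hx =>
    rcases hx with ⟨i, _, rfl⟩ | h
    · exact det_side i
    · rcases h with h | h | h <;> rw [h] <;> exact det_TM _ _ _
  | one => simp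
  | mul x y _ _ hx hy => rw [Units.val_mul, Matrix.det_mul, hx, hy, one_mul]
  | inv x _ hx =>
    have h : (x⁻¹ : GL (Fin 5) ℤ).1.det * x.1.det = 1 := by
      rw [← Matrix.det_mul, ← Units.val_mul, inv_mul_cancel, Units.val_one, Matrix.det_one]
    rwa [hx, mul_one] at h

/-! ### neighbours of the base cusp -/

theorem TM_nb (x y z a b c : ℤ) : TM x y z *ᵥ nb a b c = nb (x + a) (y + b) (z + c) := by
  rw [TM_mulVec]
  funext i
  fin_cases i <;> simp [nb, qK] <;> ring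

theorem TM_e5 (x y z : ℤ) : TM x y z *ᵥ (e5 : Fin 5 → ℤ) = e5 := by
  rw [TM_mulVec]
  funext i
  fin_cases i <;> simp [e5]

theorem JM_nb : JM *ᵥ (nb 0 0 0 : Fin 5 → ℤ) = e5 := by
  rw [JM_mulVec]
  funext i
  fin_cases i <;> simp [nb, e5, qK]

theorem SM_e5 (k : ℕ) : SM k *ᵥ (e5 : Fin 5 → ℤ) = e5 := by
  unfold SM
  split_ifs <;>
  · funext i
    fin_cases i <;> simp [e5, Matrix.mulVec, dotProduct, Fin.sum_univ_succ]

/-- the side map `i` sends the neighbour over the representative of `i` to the base cusp -/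
theorem side_nb (i : ℕ) : (side i).1 *ᵥ nb (repx i) 0 (repz i) = (e5 : Fin 5 → ℤ) := by
  have h : (side i).1 = TM (repx (pairs.getD i (0, 0)).1) 0 (repz (pairs.getD i (0, 0)).1) *
    SM (pairs.getD i (0, 0)).2 * JM * TM (-repx i) (-0) (-repz i) := rfl
  rw [h, ← Matrix.mulVec_mulVec, ← Matrix.mulVec_mulVec, ← Matrix.mulVec_mulVec, TM_nb]
  have h0 : nb (-repx i + repx i) (-0 + 0) (-repz i + repz i) = (nb 0 0 0 : Fin 5 → ℤ) := by
    congr 1 <;> ring
  rw [h0, JM_nb, SM_e5, TM_e5]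

/-- every vector of `K` is the sum of the representative of its class and a vector of `Λ'` -/
theorem exists_rep (x y z : ℤ) : ∃ i < 40, InLam (x - repx i) y (z - repz i) := by
  have hx0 : 0 ≤ x % 2 := Int.emod_nonneg x (by norm_num)
  have hx1 : x % 2 < 2 := Int.emod_lt_of_pos x (by norm_num)
  set r := x % 2 with hr
  set s := (z - 6 * (x - r) - 11 * y) % 20 with hs
  have hs0 : 0 ≤ s := Int.emod_nonneg _ (by norm_num)
  have hs1 : s < 20 := Int.emod_lt_of_pos _ (by norm_num)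
  refine ⟨(20 * r + s).toNat, by omega, ?_, ?_⟩
  · have h1 : repx (20 * r + s).toNat = r := by
      unfold repx
      omega
    rw [h1]
    omega
  · have h1 : repx (20 * r + s).toNat = r := by
      unfold repx
      omega
    have h2 : repz (20 * r + s).toNat = s := by
      unfold repz
      omega
    rw [h1, h2]
    omega

theorem Gam_adj (x y z : ℤ) : ∃ g ∈ Gam, g.1 *ᵥ e5 = (nb x y z : Fin 5 → ℤ) := by
  obtain ⟨i, hi, hl⟩ := exists_rep x y z
  refine ⟨TG (x - repx i) y (z - repz i) * (side i)⁻¹,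
    mul_mem (TG_mem hl) (inv_mem (side_mem i hi)), ?_⟩
  rw [Units.val_mul, ← Matrix.mulVec_mulVec, ← side_nb i, inv_mulVec_cancel, TG_val, TM_nb]
  congr 1 <;> ring

end Lib_MP_55d5ef
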