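import Pool.Agent.Lib_MP_55d5ef.DataA
import Pool.Agent.Lib_MP_55d5ef.NCMain

/-!
# `MP_55d5ef_gt`, level A: the slope `muG` normally generates `Gam`
-/

open Matrix Lib_MP_55d5ef_geo Pool.Agent.Lib_MP_55d5ef

namespace Lib_MP_55d5ef

theorem tM_toMat (x y z : ℤ) : (NC.tM x y z).toMat = TM x y z := by
  ext i j
  fin_cases i <;> fin_cases j <;> simp [NC.tM, M5.toMat, TM, qK]
  ring

theorem jM_toMat : NC.jM.toMat = JM := by
  ext i j
  fin_cases i <;> fin_cases j <;> simp [NC.jM, M5.toMat, JM]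

theorem sM_toMat (k : ℕ) : (NC.sM k).toMat = SM k := by
  unfold NC.sM SM
  split_ifs <;>
  · ext i j
    fin_cases i <;> fin_cases j <;> simp [M5.toMat]

theorem sideM_toMat (i : ℕ) : (NC.sideM i).toMat = (side i).1 := by
  have h : (side i).1 = TM (repx (pairs.getD i (0, 0)).1) 0 (repz (pairs.getD i (0, 0)).1) *
    SM (pairs.getD i (0, 0)).2 * JM * TM (-repx i) (-0) (-repz i) := rfl
  rw [h]
  unfold NC.sideM
  simp only [M5.toMat_mul, tM_toMat, jM_toMat, sM_toMat]
  rfl

theorem X_val' (n : ℕ) (hn : n < 23) : (NC.X n).1 = (NC.gM (2 * n)).toMat := by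
  rw [NC.X_val]
  have h := of_decide_eq_true NC.tab_ok
  rw [← h, List.getD_eq_getElem?_getD, List.getElem?_map, List.getElem?_range (by omega)]
  rfl

theorem X_inv' (n : ℕ) (hn : n < 23) : ((NC.X n)⁻¹ : GL (Fin 5) ℤ).1 = (NC.gM (2 * n + 1)).toMat := by
  rw [NC.X_inv]
  have h := of_decide_eq_true NC.tab_ok
  rw [← h, List.getD_eq_getElem?_getD, List.getElem?_map, List.getElem?_range (by omega)]
  rfl

theorem X_zero : NC.X 0 = TG 2 0 12 := Units.ext (by rw [X_val' 0 (by norm_num)]; exact tM_toMat 2 0 12)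
theorem X_one : NC.X 1 = TG 0 1 11 := Units.ext (by rw [X_val' 1 (by norm_num)]; exact tM_toMat 0 1 11)
theorem X_two : NC.X 2 = TG 0 0 20 := Units.ext (by rw [X_val' 2 (by norm_num)]; exact tM_toMat 0 0 20)

theorem gM_even (m : ℕ) : NC.gM (2 * (3 + m)) = NC.sideM (NC.half.getD m 0) := by
  have h1 : 2 * (3 + m) = (2 * m) + 6 := by ring
  have h2 : (2 * m + 6) % 2 = 0 := by omega
  have h3 : (2 * m + 6) / 2 - 3 = m := by omega
  rw [h1]
  unfold NC.gM
  simp only [h2, h3]
  rfl

theorem gM_odd (m : ℕ) : NC.gM (2 * (3 + m) + 1) =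
    NC.sideM ((pairs.getD (NC.half.getD m 0) (0, 0)).1) := by
  have h1 : 2 * (3 + m) + 1 = (2 * m + 1) + 6 := by ring
  have h2 : (2 * m + 1 + 6) % 2 = 1 := by omega
  have h3 : (2 * m + 1 + 6) / 2 - 3 = m := by omega
  rw [h1]
  unfold NC.gM
  simp only [h2, h3]
  rfl

theorem X_side (m : ℕ) (hm : m < 20) : NC.X (3 + m) = side (NC.half.getD m 0) :=
  Units.ext (by rw [X_val' _ (by omega), gM_even, sideM_toMat])

theorem X_side_inv (m : ℕ) (hm : m < 20) :
    (NC.X (3 + m))⁻¹ = side ((pairs.getD (NC.half.getD m 0) (0, 0)).1) :=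
  Units.ext (by rw [X_inv' _ (by omega), gM_odd, sideM_toMat])

theorem half_cover : ∀ i < 40, ∃ m < 20, i = NC.half.getD m 0 ∨
    i = (pairs.getD (NC.half.getD m 0) (0, 0)).1 := by decide +kernel

theorem half_lt : ∀ m < 20, NC.half.getD m 0 < 40 := by decide +kernel

/-- the partner of side `i` carries the inverse side map -/
theorem X_mem (n : ℕ) (hn : n < 23) : NC.X n ∈ Gam := by
  rcases lt_or_ge n 3 with h | h
  · interval_cases n
    · rw [X_zero]; exact Subgroup.subset_closure (Or.inr (by simp))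
    · rw [X_one]; exact Subgroup.subset_closure (Or.inr (by simp))
    · rw [X_two]; exact Subgroup.subset_closure (Or.inr (by simp))
  · obtain ⟨m, rfl⟩ := Nat.exists_eq_add_of_le h
    rw [X_side m (by omega)]
    exact side_mem _ (half_lt m (by omega))

theorem Gam_le : Gam ≤ Subgroup.closure {g | ∃ n < 23, g = NC.X n} := by
  unfold Gam
  rw [Subgroup.closure_le]
  rintro g (⟨i, hi, rfl⟩ | h)
  · obtain ⟨m, hm, h | h⟩ := half_cover i hi
    · rw [h, ← X_side m hm]
      exact Subgroup.subset_closure ⟨3 + m, by omega, rfl⟩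
    · rw [h, ← X_side_inv m hm]
      exact inv_mem (Subgroup.subset_closure ⟨3 + m, by omega, rfl⟩)
  · rcases h with h | h | h
    · rw [h, ← X_zero]; exact Subgroup.subset_closure ⟨0, by norm_num, rfl⟩
    · rw [h, ← X_one]; exact Subgroup.subset_closure ⟨1, by norm_num, rfl⟩
    · rw [h, ← X_two]; exact Subgroup.subset_closure ⟨2, by norm_num, rfl⟩

/-- **The slope normally generates the group.** -/
theorem normalClosure_muG :
    Subgroup.normalClosure {(⟨muG, muG_mem⟩ : Gam)} = ⊤ := by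
  apply NC.normalClosure_eq_top Gam X_mem Gam_le
  change muG = _
  rw [X_zero, X_one, TG_inv, TG_mul]
  rfl

end Lib_MP_55d5ef
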