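import Mathlib.LinearAlgebra.Matrix.GeneralLinearGroup.Defs
import Mathlib.LinearAlgebra.Matrix.Notation
import Mathlib.Tactic

/-!
# Integer `5 × 5` matrices with a product that the kernel evaluates quickly
-/

namespace Pool.Agent.Lib_MP_55d5ef

/-- a row of five integers -/
structure V5 where
  /-- entry 0 -/
  a : ℤ
  /-- entry 1 -/
  b : ℤ
  /-- entry 2 -/
  c : ℤ
  /-- entry 3 -/
  d : ℤ
  /-- entry 4 -/
  e : ℤ
deriving DecidableEq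

/-- five rows -/
structure M5 where
  /-- row 0 -/
  r0 : V5
  /-- row 1 -/
  r1 : V5
  /-- row 2 -/
  r2 : V5
  /-- row 3 -/
  r3 : V5
  /-- row 4 -/
  r4 : V5
deriving DecidableEq

/-- row times matrix -/
def V5.mul (r : V5) (M : M5) : V5 :=
  ⟨r.a * M.r0.a + r.b * M.r1.a + r.c * M.r2.a + r.d * M.r3.a + r.e * M.r4.a,
   r.a * M.r0.b + r.b * M.r1.b + r.c * M.r2.b + r.d * M.r3.b + r.e * M.r4.b,
   r.a * M.r0.c + r.b * M.r1.c + r.c * M.r2.c + r.d * M.r3.c + r.e * M.r4.c,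
   r.a * M.r0.d + r.b * M.r1.d + r.c * M.r2.d + r.d * M.r3.d + r.e * M.r4.d,
   r.a * M.r0.e + r.b * M.r1.e + r.c * M.r2.e + r.d * M.r3.e + r.e * M.r4.e⟩

/-- matrix product -/
def M5.mul (A B : M5) : M5 := ⟨A.r0.mul B, A.r1.mul B, A.r2.mul B, A.r3.mul B, A.r4.mul B⟩

/-- the identity -/
def M5.one : M5 := ⟨⟨1,0,0,0,0⟩, ⟨0,1,0,0,0⟩, ⟨0,0,1,0,0⟩, ⟨0,0,0,1,0⟩, ⟨0,0,0,0,1⟩⟩

/-- as a Mathlib matrix -/
def M5.toMat (A : M5) : Matrix (Fin 5) (Fin 5) ℤ :=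
  !![A.r0.a, A.r0.b, A.r0.c, A.r0.d, A.r0.e;
     A.r1.a, A.r1.b, A.r1.c, A.r1.d, A.r1.e;
     A.r2.a, A.r2.b, A.r2.c, A.r2.d, A.r2.e;
     A.r3.a, A.r3.b, A.r3.c, A.r3.d, A.r3.e;
     A.r4.a, A.r4.b, A.r4.c, A.r4.d, A.r4.e]

theorem M5.toMat_mul (A B : M5) : (A.mul B).toMat = A.toMat * B.toMat := by
  ext i j
  fin_cases i <;> fin_cases j <;>
    simp [M5.toMat, M5.mul, V5.mul, Matrix.mul_apply, Fin.sum_univ_succ] <;> ring

theorem M5.toMat_one : M5.one.toMat = 1 := by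
  ext i j
  fin_cases i <;> fin_cases j <;> simp [M5.toMat, M5.one]

end Pool.Agent.Lib_MP_55d5ef
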