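import Pool.Agent.Lib_MP_55d5ef.WordCheck

/-!
# The derivation that kills the group

Generators 0, 1, 2 are the translations t1, t2, t3 of the cusp, generators 3, ..., 22 are the 20
side maps.  `rels` are relators of the group (ridge cycles and commutators) and the relator `t1 = t2`;
`cert` is a derivation of the fact that every generator is trivial.
-/

namespace Pool.Agent.Lib_MP_55d5ef.NC

/-- the relators used -/
def rels : List (List ℕ) :=
  [[41, 0, 11, 4, 3, 19, 5, 2], [43, 5, 2, 0, 31, 18, 22, 4, 3, 1], [37, 6, 9, 29], [39, 29, 5, 2,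
  0, 11, 20], [43, 4, 3, 39, 8, 5, 2], [41, 0, 13, 4, 1, 22, 5, 2, 32, 4, 1], [43, 3, 4, 39, 8, 2,
  5], [43, 0, 17, 0, 5, 26], [43, 3, 4, 21, 31, 3, 6, 2, 5], [45, 33, 5, 2, 0, 12, 11], [2, 4, 3,
  5], [23, 21, 3, 4, 17, 0, 2, 5], [31, 9, 2, 14, 3], [35, 0, 5, 20, 2, 5, 12], [37, 5, 2, 0, 27,
  4, 4, 3, 1, 30, 12, 4, 3, 1], [45, 32, 26, 1, 4, 30], [25, 2, 19, 3, 6, 2, 5], [37, 29, 5, 2, 0,
  9, 4, 1], [29, 3, 10, 3, 8, 3], [39, 0, 11, 4, 3, 17, 5, 2, 0, 25, 4, 1], [17, 4, 3, 11, 0, 13,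
  2], [37, 16, 34, 14], [37, 0, 2, 5, 27, 1, 3, 4, 4, 30, 12, 1, 3, 4], [45, 0, 23, 3, 24, 43],
  [45, 26, 4, 1, 14, 1], [43, 24, 5, 2, 32, 4, 1], [45, 0, 21, 2, 13], [23, 21, 4, 3, 17, 5, 2,
  0], [45, 4, 18, 1, 42, 16, 1], [41, 3, 4, 37, 0, 2, 5, 25, 1, 4], [39, 36, 0, 5, 20, 1, 32, 2],
  [41, 20, 3, 33, 3, 4], [43, 32, 24, 27, 4, 1], [0, 3], [41, 2, 35, 3, 24], [37, 2, 30, 10, 4, 3,
  1], [33, 2, 22, 5, 2, 24, 5, 2]]

/-- part 0 of the derivation -/
def cert0 : List (List (List ℕ × ℕ × Bool)) :=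
  [[([11, 31, 3, 36], 35, false), ([13, 31, 0, 2, 5, 5, 26, 1, 3, 4, 36], 14, true)], [([5, 3],
  11, false), ([30, 10], 0, true)], [([], 17, true), ([10, 13, 31, 0, 2, 5, 5, 26, 1, 4], 0,
  true)], [([25, 42], 28, false), ([23, 0, 5, 12, 1, 40], 8, true)], [([18, 3, 24], 20, false),
  ([30, 20, 5, 2, 42], 12, true)], [([38], 8, false), ([36], 22, true)], [([21, 10, 9, 4, 1, 37],
  0, true), ([], 36, true)], [([20, 22], 34, false), ([10, 1, 38], 26, true)], [([40], 37, false),
  ([0, 13, 31, 5, 5, 2, 0, 26, 4, 3, 1, 36], 30, true)], [([45], 42, false), ([], 35, true)],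
  [([43, 32, 24, 27, 4, 1], 43, true), ([], 42, true)], [([45, 26, 4, 3, 14, 1], 44, true), ([45,
  26, 4, 1], 44, true), ([], 35, true)], [([45], 45, false), ([], 35, true)], [([45, 32, 26, 1],
  46, true), ([], 28, true)], [([43, 2, 17], 47, false), ([43], 47, false), ([], 21, true)],
  [([37, 2, 30, 10, 4, 3, 1], 48, true), ([], 50, true)], [([45, 4, 18, 3, 42, 16, 1], 49, true),
  ([45, 4, 18, 1], 49, true), ([], 44, true)], [([43, 24, 5, 2, 32, 4, 1], 50, true), ([], 42,
  true)], [([17, 4, 3, 11], 51, false), ([], 38, true)], [([35], 52, false), ([], 32, true)],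
  [([45, 33, 5, 2], 53, false), ([], 29, true)], [([21, 10, 9, 20, 1], 54, true), ([], 14, true)],
  [([23, 21, 4, 3, 17, 5, 2], 55, false), ([], 49, true)], [([23, 21, 3, 4, 17], 56, false), ([],
  34, true)], [([41], 57, false), ([], 24, true)], [([25, 42, 41, 2, 13, 4, 1], 58, true), ([25,
  42, 41], 58, false), ([], 21, true)], [([20, 22, 25, 4, 3, 39], 59, false), ([20, 22, 25, 4, 1],
  59, true), ([], 18, true)], [([45, 32, 4, 4, 3, 1], 60, true), ([], 24, true)], [([43, 5, 2, 2,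
  31, 18, 22, 4, 3, 1], 61, true), ([43, 5, 2], 61, false), ([], 29, true)], [([40, 5, 2, 24, 27,
  3, 3, 4, 4, 30, 12, 1], 62, true), ([40, 5, 2, 24, 27, 1], 62, true), ([40, 5], 62, false), ([],
  20, true)]]

/-- part 1 of the derivation -/
def cert1 : List (List (List ℕ × ℕ × Bool)) :=
  [[([31, 9, 2, 35, 17, 36], 51, false), ([], 42, true)], [([45, 26, 4, 3, 35, 17, 36], 52,
  false), ([], 19, true)], [([3, 8, 30], 1, false), ([2, 5, 27, 44], 0, true)], [([3, 40], 67,
  false), ([], 13, true)], [([22], 8, true), ([21, 4, 3, 3, 24, 41, 2], 0, true)], [([17, 4, 3,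
  11, 20, 3, 44], 25, false), ([], 16, true)], [([45, 33, 5, 2, 2, 12, 3, 20, 3, 44], 26, true),
  ([], 15, true)], [([45, 32, 4, 4, 3, 3, 30, 12, 3, 20, 3, 44], 27, true), ([], 9, true)], [([40,
  5, 2, 24, 27, 3, 3, 4, 4, 30, 12, 3, 20, 3, 44], 28, true), ([], 8, true)], [([33, 3, 4], 70,
  true), ([44, 31, 5, 5, 2, 2, 26, 25, 3, 4, 41], 0, true)], [([3, 3, 4, 32, 44], 3, false), ([31,
  2, 2, 5, 5, 33, 44], 2, true)], [([45, 32, 26, 25, 33, 42], 30, true), ([], 27, true)], [([43,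
  2, 17, 2, 5, 26, 25, 33, 42], 31, true), ([], 27, true)], [([3, 8, 30, 45, 26, 25, 33, 42], 32,
  true), ([], 10, true)], [([33, 33, 42], 33, false), ([], 4, true)], [([5], 55, true), ([43, 32,
  32], 0, true)], [([3, 5], 56, true), ([], 0, true)], [([3, 4, 25, 42], 29, false), ([44], 5,
  true)], [([], 1, false), ([25, 33, 24, 5, 2], 0, true)], [([33, 2, 22, 3, 44], 36, true), ([],
  85, true)], [([44], 37, false), ([2], 27, true)], [([3, 44], 38, false), ([], 27, true)], [([20,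
  22, 3, 44], 39, true), ([], 25, true)], [([22, 3, 44], 40, true), ([], 18, true)], [([43, 5, 2,
  2, 31, 18, 22, 3, 44], 41, true), ([], 25, true)], [([5], 65, true), ([3, 16, 5, 2, 20, 3, 24,
  43, 45, 2], 3, true)], [([], 66, false), ([44, 42, 25, 2, 19, 30, 3, 3, 4, 42], 1, true)],
  [([20, 5, 2, 42, 25, 2, 19], 52, false), ([3, 3, 4, 42, 2, 5], 0, true)], [([17, 5, 2], 7,
  true), ([3, 24, 43, 24, 3, 44, 42, 25, 2], 4, true)], [([41, 2, 11, 4, 3, 19, 5, 44], 42, true),
  ([], 34, true)]]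

/-- part 2 of the derivation -/
def cert2 : List (List (List ℕ × ℕ × Bool)) :=
  [[([42], 17, false), ([2], 24, true)], [([42], 18, false), ([2], 2, true)], [([44, 42, 25, 2,
  21, 4, 3, 3, 42], 19, false), ([], 11, true)], [([5, 44, 42, 25, 2, 21, 3, 4, 3, 42], 20,
  false), ([], 7, true)], [([41, 2, 11, 4, 3, 3, 42, 16, 3, 42], 21, true), ([], 4, true)], [([],
  3, false), ([2, 2, 5, 20, 3, 24, 43, 45], 2, true)], [([4, 3], 22, true), ([43, 2, 5, 2, 20, 3,
  24, 43, 45, 4], 2, true)], [([4, 3, 39, 2, 11], 14, true), ([42, 25], 1, true)], [([], 72,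
  false), ([25, 2, 2, 5, 10, 3, 38, 2, 5], 0, true)], [([8, 5, 2], 0, false), ([40], 4, true)],
  [([8, 5, 2, 25, 32, 24, 43, 45, 2], 101, false), ([], 0, true)], [([32], 21, false), ([33, 24,
  3, 4, 9], 0, true)], [([42], 23, false), ([32], 0, true)], [([20, 3, 24, 43, 45, 2, 25, 4, 3, 5,
  2, 42], 79, false), ([], 20, true)], [([3], 84, false), ([24, 3, 44, 42, 25, 2, 21], 0, true)],
  [([3, 3, 4, 32, 32, 4, 4, 3, 3, 5, 2], 28, false), ([], 34, true)], [([3, 8, 5, 2], 29, false),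
  ([], 32, true)], [([4, 3, 3, 8, 5, 2], 30, false), ([], 10, true)], [([5, 3], 88, false), ([2,
  5, 5, 33, 33, 5, 2, 2], 2, true)], [([3], 89, false), ([5, 33, 33, 5, 2, 2, 45, 33, 33, 42, 4],
  0, true)], [([3, 4, 25, 42], 62, false), ([33, 42, 3, 4, 9, 2], 3, true)], [([3, 4, 25, 42], 63,
  false), ([33, 5, 2, 2, 45, 33, 33, 42, 2], 1, true)], [([33, 42], 33, false), ([32], 1, true)],
  [([33, 42], 34, false), ([5, 2, 2, 45, 33, 33, 24, 5, 2], 1, true)], [([32], 1, false), ([42],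
  6, true)], [([3, 4, 9, 2, 11, 20], 63, true), ([], 16, true)], [([45, 33, 5, 2, 2, 45, 2, 21, 2,
  11, 20], 64, true), ([], 49, true)], [([42, 25, 33, 42, 4, 3, 11, 20], 65, true), ([], 26,
  true)], [([42, 4, 3, 9, 2, 11, 20], 66, true), ([], 13, true)], [([33, 42, 4, 3, 3, 20, 3, 24,
  43], 16, false), ([], 6, true)]]

/-- part 3 of the derivation -/
def cert3 : List (List (List ℕ × ℕ × Bool)) :=
  [[([42, 25, 33, 42, 4, 3, 9, 20, 3, 24, 43], 17, true), ([], 2, true)], [([42, 25, 2, 21, 2, 9,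
  20, 3, 24, 43], 18, true), ([24, 3, 4, 9, 20, 3, 24, 43], 18, true), ([24], 5, true)], [([42, 4,
  3, 5, 2, 25, 42, 25, 2, 21, 2, 9, 20, 3, 24, 43], 19, true), ([42, 4, 3, 9, 20, 3, 24, 43], 19,
  true), ([], 3, true)], [([45, 33, 5, 2, 2, 45, 2, 21, 2, 9, 20, 3, 24, 43], 20, true), ([], 6,
  true)], [([3], 104, false), ([43, 32, 24, 43], 3, true)], [([3], 105, false), ([43], 2, true)],
  [([3, 4, 43, 32, 24, 43], 34, false), ([44, 42, 25, 33, 24, 43, 24, 3, 4, 3, 20, 3, 24, 43, 24],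
  0, true)], [([24, 43], 5, false), ([44, 3, 3, 4, 32, 44], 3, true)], [([24, 43], 6, false),
  ([33, 42, 5, 2], 1, true)], [([2, 25, 42, 25], 37, true), ([44, 42, 25, 2, 21, 4, 3, 3, 42, 25],
  0, true)], [([25, 32], 16, false), ([], 5, true)], [([33, 24, 43, 45, 33, 24, 43, 32], 17,
  true), ([], 51, true)], [([20, 5, 2, 45, 33, 24, 43, 32], 18, true), ([], 44, true)], [([32, 32,
  24, 43, 32], 19, false), ([], 18, true)], [([24, 43, 2, 2, 5, 3, 3, 4, 33, 42, 25, 5, 2, 2, 45,
  33, 24, 43, 32], 20, true), ([24, 43, 2, 2, 5, 45, 33, 24, 43, 32], 20, true), ([], 6, true)],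
  [([2, 25, 42, 25, 2, 2, 5, 20, 3, 24, 43, 45, 33, 24, 43, 32], 21, true), ([], 5, true)], [([3,
  5], 116, true), ([21], 3, true)], [([5], 117, true), ([3, 42, 25], 2, true)], [([5], 118, true),
  ([2], 0, true)], [([3, 4, 25, 42], 91, false), ([24, 43, 32, 2], 2, true)], [([24], 9, false),
  ([42, 25, 33, 33], 6, true)], [([3, 3, 4, 33, 24], 10, false), ([32], 2, true)], [([43, 33], 0,
  true), ([5, 2], 2, true)], [([33, 42], 12, true), ([32], 11, true)], [([33, 42], 13, true), ([2,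
  21, 4, 3, 3, 24, 43, 24, 3], 8, true)], [([3, 4], 2, true), ([], 4, true)], [([32, 42], 3,
  false), ([4, 3, 3, 24, 43, 24, 3, 33, 24, 43, 24, 43, 32], 1, true)], [([3, 4, 3, 32, 32, 24,
  43], 1, true), ([], 0, true)], [([2, 5], 128, true), ([24, 43, 24, 3, 33, 33, 33, 2, 5, 2], 0,
  true)], [([32, 24], 70, true), ([3, 4, 3, 33, 24, 43, 24, 43, 32], 5, true)]]

/-- part 4 of the derivation -/
def cert4 : List (List (List ℕ × ℕ × Bool)) :=
  [[([3, 4, 24, 43, 33], 8, true), ([4, 3, 33, 24, 43, 33], 0, true)], [([5], 131, true), ([33, 5,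
  2], 0, true)], [([], 0, true), ([42, 25, 5, 2, 2], 10, true)], [([], 1, false), ([3, 4, 25, 42],
  105, true)], [([], 2, false), ([], 5, true)], [([], 3, false), ([], 0, true)], [([], 4, false),
  ([], 0, true)], [([], 5, false), ([42], 78, true)], [([], 6, false), ([], 0, true)], [([25], 7,
  false), ([5, 2], 0, true)], [([], 8, true), ([42], 17, true)], [([], 9, true), ([2, 21], 0,
  true)], [([43], 10, true), ([43], 42, true)], [([], 11, false), ([24, 43, 24, 3, 4, 3, 20, 3,
  24, 43], 41, true)], [([2, 5, 3], 144, false), ([25, 42, 2, 5], 10, true)], [([], 0, true),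
  ([3], 8, true)], [([42], 1, false), ([5, 2, 2], 13, true)], [([24], 2, true), ([], 5, true)],
  [([42], 3, false), ([2, 21, 2, 2, 5], 5, true)], [([3, 24], 4, true), ([2, 5, 20, 3], 5, true)],
  [([], 5, true), ([3, 4, 3, 20], 0, true)], [([42], 11, false), ([2], 4, true)], [([], 6, true),
  ([21, 2, 2, 5, 25], 3, true)], [([], 7, false), ([], 2, true)], [([42], 14, false), ([], 6,
  true)], [([21], 0, false), ([2, 5], 2, true)], [([3], 1, true), ([2, 5, 20], 2, true)], [([5],
  2, true), ([], 0, true)], [([], 0, true), ([24], 12, true)], [([], 1, false), ([43], 7, true)]]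

/-- part 5 of the derivation -/
def cert5 : List (List (List ℕ × ℕ × Bool)) :=
  [[([], 2, false), ([21], 5, true)], [([], 3, false), ([5], 5, true)], [([], 4, false)], [([], 4,
  false)], [([44], 2, false), ([44], 1, true), ([44], 1, true), ([], 32, false), ([], 0, true),
  ([], 4, false), ([], 32, true), ([], 70, true)], [([8], 1, true), ([8], 2, false), ([8], 3,
  true), ([], 4, true), ([], 2, false), ([], 1, true), ([], 5, false), ([], 82, true)], [([10], 3,
  false), ([10], 34, false), ([10], 3, true), ([10], 5, false), ([10], 0, true), ([], 5, true),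
  ([], 134, true)], [([30], 7, false), ([30], 35, true), ([30], 35, true), ([30], 2, true), ([],
  5, false), ([], 4, true), ([], 110, true)], [([], 164, false), ([], 8, false), ([], 5, false),
  ([], 6, true), ([39], 2, true), ([39], 5, true), ([39], 6, false)], [([], 190, false), ([41], 8,
  true), ([41], 6, false), ([41], 37, false), ([41], 6, false), ([41], 7, true)], [([], 117,
  false), ([], 10, false), ([], 7, true), ([17], 10, false), ([17], 38, true), ([17], 6, true)],
  [([], 145, false), ([37], 8, true), ([37], 3, true), ([37], 4, true), ([37], 9, true), ([37], 8,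
  false), ([37], 8, false)], [([18], 9, true), ([18], 1, false), ([18], 12, false), ([18], 9,
  true), ([], 10, false), ([], 7, true), ([], 145, true)], [([], 150, false), ([], 8, false), ([],
  10, true), ([23], 10, false), ([23], 9, true), ([23], 13, false)], [([], 182, false), ([29], 11,
  false), ([29], 7, true), ([29], 11, false), ([29], 8, true), ([29], 11, false)], [([], 154,
  false), ([], 15, false), ([], 43, true), ([], 11, true), ([27], 13, true), ([27], 12, false)],
  [([], 156, false), ([], 11, false), ([], 13, true), ([], 15, false), ([], 13, true)], [([], 201,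
  false), ([], 7, false), ([], 14, true), ([35], 14, false), ([35], 13, true)], [([], 0, false),
  ([], 7, false), ([], 6, true), ([], 189, true)], [([6], 4, true), ([6], 13, true), ([], 7,
  true), ([], 171, true)], [([0], 17, true), ([], 203, true)]]

/-- the derivation -/
def cert : List (List (List ℕ × ℕ × Bool)) :=
  cert0 ++ cert1 ++ cert2 ++ cert3 ++ cert4 ++ cert5

theorem cert_ok : killsAll 23 (run rels cert) = true := by decide +kernel

end Pool.Agent.Lib_MP_55d5ef.NC
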