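import Pool.Agent.Lib_MP_55d5ef.M5
import Pool.Agent.Lib_MP_55d5ef.NCData

/-!
# The generators as integer matrices and the relators as matrix identities

Coordinates `v = (a, k1, k2, k3, b)` of the lattice `U + K`, form `(k, k') - a b' - a' b` with
Gram matrix `[2,-1,-1; -1,2,0; -1,0,4]` of `K`.
-/

namespace Pool.Agent.Lib_MP_55d5ef.NC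

open Pool.Agent.Lib_MP_55d5ef

/-- the translation by `(x, y, z)` -/
def tM (x y z : ℤ) : M5 :=
  ⟨⟨1, 2 * x - y - z, 2 * y - x, 4 * z - x, x * x + y * y + 2 * z * z - x * y - x * z⟩,
   ⟨0, 1, 0, 0, x⟩, ⟨0, 0, 1, 0, y⟩, ⟨0, 0, 0, 1, z⟩, ⟨0, 0, 0, 0, 1⟩⟩

/-- the involution that exchanges the two isotropic basis vectors -/
def jM : M5 := ⟨⟨0,0,0,0,1⟩, ⟨0,1,0,0,0⟩, ⟨0,0,1,0,0⟩, ⟨0,0,0,1,0⟩, ⟨1,0,0,0,0⟩⟩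

/-- the reflections of `K` in `(1,0,0)` (index 3), `(1,1,0)` (index 4), `(0,1,0)` (index 11) -/
def sM (k : ℕ) : M5 :=
  if k = 3 then ⟨⟨1,0,0,0,0⟩, ⟨0,-1,1,1,0⟩, ⟨0,0,1,0,0⟩, ⟨0,0,0,1,0⟩, ⟨0,0,0,0,1⟩⟩
  else if k = 4 then ⟨⟨1,0,0,0,0⟩, ⟨0,0,-1,1,0⟩, ⟨0,-1,0,1,0⟩, ⟨0,0,0,1,0⟩, ⟨0,0,0,0,1⟩⟩
  else ⟨⟨1,0,0,0,0⟩, ⟨0,1,0,0,0⟩, ⟨0,1,-1,0,0⟩, ⟨0,0,0,1,0⟩, ⟨0,0,0,0,1⟩⟩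

/-- the 40 pairs `(j, A)`: side `i` is glued to side `j` with reflection `A` -/
def pairs : List (ℕ × ℕ) :=
  [(11,3),(13,11),(35,11),(16,4),(22,3),(31,3),(20,3),(14,4),(27,11),(17,11),
   (19,3),(0,3),(24,11),(1,11),(7,4),(21,4),(3,4),(9,11),(38,11),(10,3),
   (6,3),(15,4),(4,3),(26,3),(12,11),(32,3),(23,3),(8,11),(33,4),(34,4),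
   (37,3),(5,3),(25,3),(28,4),(29,4),(2,11),(39,3),(30,3),(18,11),(36,3)]

/-- first coordinate of the representative of class `i` -/
def repx (i : ℕ) : ℤ := (i / 20 : ℕ)
/-- third coordinate of the representative of class `i` -/
def repz (i : ℕ) : ℤ := (i % 20 : ℕ)

/-- the side map `i` -/
def sideM (i : ℕ) : M5 :=
  let p := pairs.getD i (0, 0)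
  (((tM (repx p.1) 0 (repz p.1)).mul (sM p.2)).mul jM).mul (tM (-repx i) 0 (-repz i))

/-- the 20 sides `i` with `i < j` -/
def half : List ℕ := [0,1,2,3,4,5,6,7,8,9,10,12,15,18,23,25,28,29,30,36]

/-- the matrix of a letter -/
def gM (l : ℕ) : M5 :=
  match l with
  | 0 => tM 2 0 12
  | 1 => tM (-2) 0 (-12)
  | 2 => tM 0 1 11
  | 3 => tM 0 (-1) (-11)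
  | 4 => tM 0 0 20
  | 5 => tM 0 0 (-20)
  | l => bif Nat.beq (l % 2) 0 then sideM (half.getD (l / 2 - 3) 0)
    else sideM ((pairs.getD (half.getD (l / 2 - 3) 0) (0, 0)).1)

/-- the matrices of the letters, evaluated -/
def gTab : List M5 :=
  [⟨⟨1,-8,-2,46,268⟩, ⟨0,1,0,0,2⟩, ⟨0,0,1,0,0⟩, ⟨0,0,0,1,12⟩, ⟨0,0,0,0,1⟩⟩,
   ⟨⟨1,8,2,-46,268⟩, ⟨0,1,0,0,-2⟩, ⟨0,0,1,0,0⟩, ⟨0,0,0,1,-12⟩, ⟨0,0,0,0,1⟩⟩,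
   ⟨⟨1,-12,2,44,243⟩, ⟨0,1,0,0,0⟩, ⟨0,0,1,0,1⟩, ⟨0,0,0,1,11⟩, ⟨0,0,0,0,1⟩⟩,
   ⟨⟨1,12,-2,-44,243⟩, ⟨0,1,0,0,0⟩, ⟨0,0,1,0,-1⟩, ⟨0,0,0,1,-11⟩, ⟨0,0,0,0,1⟩⟩,
   ⟨⟨1,-20,0,80,800⟩, ⟨0,1,0,0,0⟩, ⟨0,0,1,0,0⟩, ⟨0,0,0,1,20⟩, ⟨0,0,0,0,1⟩⟩,
   ⟨⟨1,20,0,-80,800⟩, ⟨0,1,0,0,0⟩, ⟨0,0,1,0,0⟩, ⟨0,0,0,1,-20⟩, ⟨0,0,0,0,1⟩⟩,
   ⟨⟨242,11,-11,33,1⟩, ⟨0,-1,1,1,0⟩, ⟨0,0,1,0,0⟩, ⟨11,0,0,1,0⟩, ⟨1,0,0,0,0⟩⟩,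
   ⟨⟨0,0,0,0,1⟩, ⟨0,-1,1,1,-11⟩, ⟨0,0,1,0,0⟩, ⟨0,0,0,1,-11⟩, ⟨1,11,0,-44,242⟩⟩,
   ⟨⟨338,325,0,-1300,625⟩, ⟨0,1,0,0,0⟩, ⟨0,1,-1,0,0⟩, ⟨13,13,0,-51,25⟩, ⟨1,1,0,-4,2⟩⟩,
   ⟨⟨2,25,0,-100,625⟩, ⟨0,1,0,0,0⟩, ⟨0,1,-1,0,0⟩, ⟨1,13,0,-51,325⟩, ⟨1,13,0,-52,338⟩⟩,
   ⟨⟨436,858,1,-3429,3371⟩, ⟨1,3,0,-8,8⟩, ⟨0,1,-1,0,0⟩, ⟨15,30,0,-119,118⟩, ⟨1,2,0,-8,8⟩⟩,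
   ⟨⟨8,102,8,-464,3371⟩, ⟨0,1,0,0,-1⟩, ⟨0,1,-1,0,-1⟩, ⟨2,26,2,-117,857⟩, ⟨1,13,1,-59,436⟩⟩,
   ⟨⟨512,1536,16,-6096,9073⟩, ⟨0,0,-1,1,-3⟩, ⟨0,-1,0,1,-3⟩, ⟨16,48,0,-191,285⟩, ⟨1,3,0,-12,18⟩⟩,
   ⟨⟨18,288,3,-1143,9073⟩, ⟨0,0,-1,1,-16⟩, ⟨0,-1,0,1,-16⟩, ⟨3,48,0,-191,1520⟩, ⟨1,16,0,-64,512⟩⟩,
   ⟨⟨7,28,-1,-105,197⟩, ⟨1,3,1,-15,28⟩, ⟨0,0,1,0,0⟩, ⟨2,8,0,-31,60⟩, ⟨1,4,0,-16,32⟩⟩,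
   ⟨⟨32,4,28,-212,197⟩, ⟨0,-1,1,1,-1⟩, ⟨0,0,1,0,0⟩, ⟨4,0,4,-27,26⟩, ⟨1,0,1,-7,7⟩⟩,
   ⟨⟨232,1169,-10,-4606,11431⟩, ⟨1,4,1,-19,45⟩, ⟨0,0,1,0,0⟩, ⟨11,55,0,-219,545⟩, ⟨1,5,0,-20,50⟩⟩,
   ⟨⟨50,455,45,-2135,11431⟩, ⟨0,-1,1,1,-10⟩, ⟨0,0,1,0,0⟩, ⟨5,45,5,-214,1149⟩, ⟨1,9,1,-43,232⟩⟩,
   ⟨⟨1,4,1,-23,67⟩, ⟨1,5,1,-23,66⟩, ⟨0,0,1,0,0⟩, ⟨0,0,0,1,-6⟩, ⟨1,6,0,-24,72⟩⟩,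
   ⟨⟨72,-138,66,90,67⟩, ⟨0,-1,1,1,1⟩, ⟨0,0,1,0,0⟩, ⟨6,-12,6,7,6⟩, ⟨1,-2,1,1,1⟩⟩,
   ⟨⟨392,2744,14,-10934,38123⟩, ⟨0,0,-1,1,-7⟩, ⟨0,-1,0,1,-7⟩, ⟨14,98,0,-391,1365⟩, ⟨1,7,0,-28,98⟩⟩,
   ⟨⟨98,1372,7,-5467,38123⟩, ⟨0,0,-1,1,-14⟩, ⟨0,-1,0,1,-14⟩, ⟨7,98,0,-391,2730⟩, ⟨1,14,0,-56,392⟩⟩,
   ⟨⟨92,730,1,-2917,11561⟩, ⟨1,9,0,-32,128⟩, ⟨0,1,-1,0,0⟩, ⟨7,56,0,-223,888⟩, ⟨1,8,0,-32,128⟩⟩,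
   ⟨⟨128,632,128,-3424,11561⟩, ⟨0,1,0,0,-1⟩, ⟨0,1,-1,0,-1⟩, ⟨8,40,8,-215,729⟩, ⟨1,5,1,-27,92⟩⟩,
   ⟨⟨578,5185,0,-20740,93025⟩, ⟨0,1,0,0,0⟩, ⟨0,1,-1,0,0⟩, ⟨17,153,0,-611,2745⟩, ⟨1,9,0,-36,162⟩⟩,
   ⟨⟨162,2745,0,-10980,93025⟩, ⟨0,1,0,0,0⟩, ⟨0,1,-1,0,0⟩, ⟨9,153,0,-611,5185⟩, ⟨1,17,0,-68,578⟩⟩,
   ⟨⟨722,7239,-19,-28823,143831⟩, ⟨0,-1,1,1,-10⟩, ⟨0,0,1,0,0⟩, ⟨19,190,0,-759,3790⟩, ⟨1,10,0,-40,200⟩⟩,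
   ⟨⟨200,3810,-10,-15170,143831⟩, ⟨0,-1,1,1,-19⟩, ⟨0,0,1,0,0⟩, ⟨10,190,0,-759,7201⟩, ⟨1,19,0,-76,722⟩⟩,
   ⟨⟨29,345,1,-1377,8173⟩, ⟨1,13,0,-48,288⟩, ⟨0,1,-1,0,0⟩, ⟨4,48,0,-191,1140⟩, ⟨1,12,0,-48,288⟩⟩,
   ⟨⟨288,564,288,-4272,8173⟩, ⟨0,1,0,0,-1⟩, ⟨0,1,-1,0,-1⟩, ⟨12,24,12,-179,344⟩, ⟨1,2,1,-15,29⟩⟩,
   ⟨⟨2,31,-1,-117,856⟩, ⟨1,15,-1,-59,435⟩, ⟨0,-1,0,1,-15⟩, ⟨1,15,0,-59,435⟩, ⟨1,15,0,-60,450⟩⟩,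
   ⟨⟨450,-450,465,-1305,856⟩, ⟨0,0,-1,1,-1⟩, ⟨0,-1,0,1,0⟩, ⟨15,-15,15,-44,29⟩, ⟨1,-1,1,-3,2⟩⟩,
   ⟨⟨631,11341,1,-45361,407611⟩, ⟨1,19,0,-72,648⟩, ⟨0,1,-1,0,0⟩, ⟨18,324,0,-1295,11646⟩, ⟨1,18,0,-72,648⟩⟩,
   ⟨⟨648,10350,648,-45936,407611⟩, ⟨0,1,0,0,-1⟩, ⟨0,1,-1,0,-1⟩, ⟨18,288,18,-1277,11340⟩, ⟨1,16,1,-71,631⟩⟩,
   ⟨⟨67,71,62,-718,1012⟩, ⟨1,0,2,-10,14⟩, ⟨0,0,1,0,0⟩, ⟨6,6,6,-65,93⟩, ⟨1,1,1,-11,16⟩⟩,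
   ⟨⟨16,65,14,-358,1012⟩, ⟨1,3,2,-22,62⟩, ⟨0,0,1,0,0⟩, ⟨3,12,3,-68,195⟩, ⟨1,4,1,-23,67⟩⟩,
   ⟨⟨277,841,266,-5226,12548⟩, ⟨1,2,2,-18,42⟩, ⟨0,0,1,0,0⟩, ⟨12,36,12,-227,547⟩, ⟨1,3,1,-19,46⟩⟩,
   ⟨⟨46,463,42,-2146,12548⟩, ⟨1,9,2,-46,266⟩, ⟨0,0,1,0,0⟩, ⟨5,50,5,-234,1373⟩, ⟨1,10,1,-47,277⟩⟩,
   ⟨⟨326,1957,337,-10067,39134⟩, ⟨1,6,0,-30,113⟩, ⟨0,-1,0,1,-7⟩, ⟨13,78,13,-402,1565⟩, ⟨1,6,1,-31,121⟩⟩,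
   ⟨⟨121,1332,127,-6147,39134⟩, ⟨1,11,0,-50,313⟩, ⟨0,-1,0,1,-12⟩, ⟨8,88,8,-407,2595⟩, ⟨1,11,1,-51,326⟩⟩,
   ⟨⟨379,2654,391,-13223,57988⟩, ⟨1,7,0,-34,145⟩, ⟨0,-1,0,1,-8⟩, ⟨14,98,14,-489,2147⟩, ⟨1,7,1,-35,154⟩⟩,
   ⟨⟨154,1849,161,-8443,57988⟩, ⟨1,12,0,-54,365⟩, ⟨0,-1,0,1,-13⟩, ⟨9,108,9,-494,3397⟩, ⟨1,12,1,-55,379⟩⟩,
   ⟨⟨562,4511,546,-21866,106808⟩, ⟨1,7,2,-38,182⟩, ⟨0,0,1,0,0⟩, ⟨17,136,17,-662,3237⟩, ⟨1,8,1,-39,191⟩⟩,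
   ⟨⟨191,2873,182,-12766,106808⟩, ⟨1,14,2,-66,546⟩, ⟨0,0,1,0,0⟩, ⟨10,150,10,-669,5603⟩, ⟨1,15,1,-67,562⟩⟩,
   ⟨⟨704,9873,686,-44294,348944⟩, ⟨1,13,2,-62,482⟩, ⟨0,0,1,0,0⟩, ⟨19,266,19,-1196,9427⟩, ⟨1,14,1,-63,497⟩⟩,
   ⟨⟨497,8463,482,-37226,348944⟩, ⟨1,16,2,-74,686⟩, ⟨0,0,1,0,0⟩, ⟨16,272,16,-1199,11245⟩, ⟨1,17,1,-75,704⟩⟩]

/-- the matrix of a word, from the table -/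
def wM (w : List ℕ) : M5 := w.foldl (fun A l => A.mul (gTab.getD l M5.one)) M5.one

theorem tab_ok : decide ((List.range 46).map gM = gTab) = true := by
  decide +kernel

theorem inv_ok : ((List.range 46).all fun l =>
    decide ((gTab.getD l M5.one).mul (gTab.getD (linv l) M5.one) = M5.one)) = true := by
  decide +kernel

theorem rel_ok : (rels.all fun w => (w == [0, 3]) || decide (wM w = M5.one)) = true := by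
  decide +kernel

end Pool.Agent.Lib_MP_55d5ef.NC
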