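import Mathlib
import Pool.Agent.Lib_MP_55d5ef_geo.GMain
import Pool.Agent.Lib_MP_55d5ef.DataN
import Pool.Agent.Lib_MP_55d5ef_f.Stab
import Pool.Agent.Lib_MP_55d5ef_a2.Fre

/-!
# `MP_55d5ef_gt`: a one-cusped hyperbolic 4-manifold whose torus cusp has a slope that normally
generates the fundamental group
-/

set_option autoImplicit false

open Matrix MeasureTheory

namespace Pool.Agent.Results.MP_55d5ef_gt.TorusCuspLattice

/-- The Lorentz form of signature `(4,1)` on `ℝ⁵`. -/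
def lor (x y : Fin 5 → ℝ) : ℝ :=
  x 1 * y 1 + x 2 * y 2 + x 3 * y 3 + x 4 * y 4 - x 0 * y 0

/-- Hyperbolic 4-space `H⁴`: the upper sheet of the hyperboloid `lor x x = -1`
(hyperbolic distance: `cosh d(x,y) = -lor x y`). -/
def H4 : Set (Fin 5 → ℝ) := {x | lor x x = -1 ∧ 0 < x 0}

/-- Orientation preserving isometries of `H⁴`: the group `SO⁺(4,1)`. -/
def IsOrientationPreservingIsometry (g : GL (Fin 5) ℝ) : Prop :=
  (∀ x y, lor (g.1 *ᵥ x) (g.1 *ᵥ y) = lor x y) ∧ (∀ x ∈ H4, g.1 *ᵥ x ∈ H4) ∧ g.1.det = 1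

/-- Hyperbolic volume of a subset of `H⁴`: five times the Lebesgue measure in `ℝ⁵` of the cone
over it from the origin. -/
noncomputable def hypVol (A : Set (Fin 5 → ℝ)) : ENNReal :=
  5 * volume {y | ∃ s ∈ Set.Icc (0 : ℝ) 1, ∃ x ∈ A, y = s • x}

/-- `Γ` is the group of deck transformations of a complete orientable hyperbolic 4-manifold
`H⁴/Γ` of finite volume. -/
structure IsFiniteVolumeManifoldGroup (Γ : Subgroup (GL (Fin 5) ℝ)) : Prop where
  /-- `Γ` consists of orientation preserving isometries of `H⁴` -/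
  isometries : ∀ g ∈ Γ, IsOrientationPreservingIsometry g
  /-- `Γ` acts freely on `H⁴` -/
  free : ∀ g ∈ Γ, ∀ x ∈ H4, g.1 *ᵥ x = x → g = 1
  /-- `Γ` acts properly discontinuously on `H⁴` -/
  properlyDiscontinuous : ∀ C ⊆ H4, IsCompact C →
    {g : GL (Fin 5) ℝ | g ∈ Γ ∧ ∃ x ∈ C, g.1 *ᵥ x ∈ C}.Finite
  /-- a set of finite hyperbolic volume meets every orbit -/
  finiteVolume : ∃ F ⊆ H4, hypVol F < ⊤ ∧ ∀ x ∈ H4, ∃ g ∈ Γ, g.1 *ᵥ x ∈ F

/-- `H⁴/Γ` has exactly one cusp, at the light-like vector `v`, and it is a 3-torus cusp: the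
stabilizer of `v` is free abelian with basis `μ, τ₁, τ₂`, an open horoball centred at `v` is
precisely invariant under it, and `H⁴` is the union of the translates of this horoball and of
a compact set. -/
structure IsUniqueTorusCusp (Γ : Subgroup (GL (Fin 5) ℝ)) (v : Fin 5 → ℝ) (μ τ₁ τ₂ : Γ) :
    Prop where
  light : lor v v = 0 ∧ 0 < v 0
  stabilizer : ∀ g : Γ, g.1.1 *ᵥ v = v ↔ ∃ a b c : ℤ, g = μ ^ a * τ₁ ^ b * τ₂ ^ c
  commute : Commute μ τ₁ ∧ Commute μ τ₂ ∧ Commute τ₁ τ₂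
  independent : ∀ a b c : ℤ, μ ^ a * τ₁ ^ b * τ₂ ^ c = 1 → a = 0 ∧ b = 0 ∧ c = 0
  horoball : ∃ r > 0,
    (∀ g : Γ, ∀ x ∈ H4, -lor x v < r → -lor (g.1.1 *ᵥ x) v < r → g.1.1 *ᵥ v = v) ∧
    ∃ C ⊆ H4, IsCompact C ∧ ∀ x ∈ H4, ∃ g : Γ, g.1.1 *ᵥ x ∈ C ∨ -lor (g.1.1 *ᵥ x) v < r

/-- The data of the explicit group. -/
private theorem gdata : Lib_MP_55d5ef_geo.GData Lib_MP_55d5ef.Gam where
  isom := Lib_MP_55d5ef.Gam_isom
  fwd := Lib_MP_55d5ef.Gam_fwd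
  detone := Lib_MP_55d5ef.Gam_detone
  adj := Lib_MP_55d5ef.Gam_adj
  stab := MP55F.Gam_stab
  free := H4A2.Gam_free

/-- There is a complete orientable hyperbolic 4-manifold `M = H⁴/Γ` of finite volume with
exactly one cusp, a 3-torus cusp, and an element `μ` of a basis of the cusp group `ℤ³` whose
normal closure in `Γ = π₁(M)` is the whole group. -/
theorem result : ∃ (Γ : Subgroup (GL (Fin 5) ℝ)) (v : Fin 5 → ℝ) (μ τ₁ τ₂ : Γ),
    IsFiniteVolumeManifoldGroup Γ ∧ IsUniqueTorusCusp Γ v μ τ₁ τ₂ ∧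
      Subgroup.normalClosure {μ} = ⊤ := by
  obtain ⟨Γ, v, μ, τ₁, τ₂, h1, h2, h3⟩ := Lib_MP_55d5ef_geo.levelA gdata
    ⟨Lib_MP_55d5ef.muG, Lib_MP_55d5ef.muG_mem⟩ rfl Lib_MP_55d5ef.normalClosure_muG
  exact ⟨Γ, v, μ, τ₁, τ₂,
    ⟨fun g hg => h1.isometries hg, h1.free, h1.properlyDiscontinuous, h1.finiteVolume⟩,
    ⟨h2.light, h2.stabilizer, h2.commute, h2.independent, h2.horoball⟩, h3⟩

end Pool.Agent.Results.MP_55d5ef_gt.TorusCuspLattice
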