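import Mathlib.Algebra.Group.Subgroup.Basic
import Mathlib.Algebra.BigOperators.Group.List.Basic
import Mathlib.Tactic

/-!
# A kernel-checkable calculus of consequences of group relations

Letters are natural numbers: `2 * n` is the generator `n`, `2 * n + 1` its inverse.  A proof line
is a list of triples `(c, i, s)`: the product of the `c * (line i)^{±1} * c⁻¹`, freely reduced, is
the next line.  `run_sound`: if the given relators hold in a group, every line does.
-/

namespace Pool.Agent.Lib_MP_55d5ef

/-- the letters `a`, `b` are inverse to each other -/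
def lcan (a b : ℕ) : Bool := (Nat.beq (a / 2) (b / 2)) && !(Nat.beq a b)

/-- the inverse letter -/
def linv (a : ℕ) : ℕ := bif Nat.beq (a % 2) 0 then a + 1 else a - 1

/-- the inverse word -/
def winv (w : List ℕ) : List ℕ := (w.map linv).reverse

/-- multiply a reversed reduced word by a letter -/
def push (acc : List ℕ) (x : ℕ) : List ℕ :=
  match acc with
  | [] => [x]
  | a :: t => bif lcan a x then t else x :: a :: t

/-- free reduction -/
def wred (w : List ℕ) : List ℕ := (w.foldl push []).reverse

/-- one proof line: a product of conjugates of earlier lines (newest first) -/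
def step (L : List (List ℕ)) (p : List (List ℕ × ℕ × Bool)) : List ℕ :=
  wred (p.flatMap fun q => q.1 ++ ((bif q.2.2 then L.getD q.2.1 [] else winv (L.getD q.2.1 [])) ++
    winv q.1))

/-- run a whole derivation -/
def run : List (List ℕ) → List (List (List ℕ × ℕ × Bool)) → List (List ℕ)
  | L, [] => L
  | L, p :: ps => run (step L p :: L) ps

variable {G : Type*} [Group G]

/-- value of a letter -/
def lval (x : ℕ → G) (a : ℕ) : G := bif Nat.beq (a % 2) 0 then x (a / 2) else (x (a / 2))⁻¹

/-- value of a word -/
def ev (x : ℕ → G) (w : List ℕ) : G := (w.map (lval x)).prod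

@[simp] theorem ev_nil (x : ℕ → G) : ev x [] = 1 := rfl

@[simp] theorem ev_cons (x : ℕ → G) (a : ℕ) (w : List ℕ) : ev x (a :: w) = lval x a * ev x w := by
  simp [ev]

@[simp] theorem ev_append (x : ℕ → G) (v w : List ℕ) : ev x (v ++ w) = ev x v * ev x w := by
  simp [ev]

theorem lval_even (x : ℕ → G) {a : ℕ} (h : a % 2 = 0) : lval x a = x (a / 2) := by
  unfold lval
  rw [h]
  rfl

theorem lval_odd (x : ℕ → G) {a : ℕ} (h : a % 2 = 1) : lval x a = (x (a / 2))⁻¹ := by
  unfold lval
  rw [h]
  rfl

theorem lval_linv (x : ℕ → G) (a : ℕ) : lval x (linv a) = (lval x a)⁻¹ := by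
  rcases Nat.mod_two_eq_zero_or_one a with h | h
  · have h0 : linv a = a + 1 := by
      unfold linv
      rw [h]
      rfl
    rw [h0, lval_even x h, lval_odd x (show (a + 1) % 2 = 1 by omega),
      show (a + 1) / 2 = a / 2 by omega]
  · have h0 : linv a = a - 1 := by
      unfold linv
      rw [h]
      rfl
    rw [h0, lval_odd x h, lval_even x (show (a - 1) % 2 = 0 by omega),
      show (a - 1) / 2 = a / 2 by omega, inv_inv]

theorem ev_winv (x : ℕ → G) (w : List ℕ) : ev x (winv w) = (ev x w)⁻¹ := by
  induction w with
  | nil => simp [winv]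
  | cons a w ih =>
    have : winv (a :: w) = winv w ++ [linv a] := by simp [winv]
    rw [this, ev_append, ih]
    simp [lval_linv]

theorem lval_cancel (x : ℕ → G) {a b : ℕ} (h : lcan a b = true) : lval x a * lval x b = 1 := by
  unfold lcan at h
  rw [Bool.and_eq_true] at h
  obtain ⟨h1, h2⟩ := h
  have h1' : a / 2 = b / 2 := Nat.eq_of_beq_eq_true h1
  have h3 : a ≠ b := by
    intro hab
    rw [hab] at h2
    simp at h2
  rcases Nat.mod_two_eq_zero_or_one a with ha | ha <;> rcases Nat.mod_two_eq_zero_or_one b with hb | hb
  · exfalso; omega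
  · rw [lval_even x ha, lval_odd x hb, h1', mul_inv_cancel]
  · rw [lval_odd x ha, lval_even x hb, h1', inv_mul_cancel]
  · exfalso; omega

theorem ev_push (x : ℕ → G) (acc : List ℕ) (a : ℕ) :
    ev x (push acc a).reverse = ev x acc.reverse * lval x a := by
  cases acc with
  | nil => simp [push]
  | cons b t =>
    unfold push
    by_cases h : lcan b a = true
    · simp only [h, cond_true, List.reverse_cons, ev_append, ev_cons, ev_nil, mul_one]
      rw [mul_assoc, lval_cancel x h, mul_one]
    · simp only [h, cond_false, List.reverse_cons, ev_append, ev_cons, ev_nil, mul_one]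

theorem ev_foldl (x : ℕ → G) (w acc : List ℕ) :
    ev x (w.foldl push acc).reverse = ev x acc.reverse * ev x w := by
  induction w generalizing acc with
  | nil => simp
  | cons a w ih => rw [List.foldl_cons, ih, ev_push, ev_cons, mul_assoc]

theorem ev_wred (x : ℕ → G) (w : List ℕ) : ev x (wred w) = ev x w := by
  unfold wred
  rw [ev_foldl]
  simp

theorem ev_getD (x : ℕ → G) (L : List (List ℕ)) (hL : ∀ w ∈ L, ev x w = 1) (i : ℕ) :
    ev x (L.getD i []) = 1 := by
  rw [List.getD_eq_getElem?_getD]
  rcases h : L[i]? with _ | w
  · simp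
  · simp only [Option.getD_some]
    exact hL w (List.mem_of_getElem? h)

theorem ev_step (x : ℕ → G) (L : List (List ℕ)) (hL : ∀ w ∈ L, ev x w = 1)
    (p : List (List ℕ × ℕ × Bool)) : ev x (step L p) = 1 := by
  unfold step
  rw [ev_wred]
  induction p with
  | nil => simp
  | cons q p ih =>
    rw [List.flatMap_cons, ev_append, ih, mul_one, ev_append, ev_append, ev_winv]
    have h : ev x (bif q.2.2 then L.getD q.2.1 [] else winv (L.getD q.2.1 [])) = 1 := by
      cases q.2.2
      · simp only [cond_false]
        rw [ev_winv, ev_getD x L hL, inv_one]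
      · simp only [cond_true]
        exact ev_getD x L hL _
    rw [h]
    simp

/-- **Soundness.**  Every line of a derivation from relators that hold in `G` holds in `G`. -/
theorem run_sound (x : ℕ → G) (L : List (List ℕ)) (ps : List (List (List ℕ × ℕ × Bool)))
    (hL : ∀ w ∈ L, ev x w = 1) : ∀ w ∈ run L ps, ev x w = 1 := by
  induction ps generalizing L with
  | nil => simpa [run] using hL
  | cons p ps ih =>
    apply ih
    intro w hw
    rcases List.mem_cons.mp hw with h | h
    · rw [h]; exact ev_step x L hL p
    · exact hL w h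

/-- the lines contain the one-letter word of each generator `< n` -/
def killsAll (n : ℕ) (L : List (List ℕ)) : Bool :=
  (List.range n).all fun g => L.any fun w => match w with
    | [a] => Nat.beq a (2 * g)
    | _ => false

theorem killsAll_sound (x : ℕ → G) (n : ℕ) (L : List (List ℕ)) (h : killsAll n L = true)
    (hL : ∀ w ∈ L, ev x w = 1) : ∀ g < n, x g = 1 := by
  intro g hg
  unfold killsAll at h
  rw [List.all_eq_true] at h
  have h1 := h g (List.mem_range.mpr hg)
  rw [List.any_eq_true] at h1
  obtain ⟨w, hw, hw2⟩ := h1
  have h3 : w = [2 * g] := by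
    match w, hw2 with
    | [a], hw2 => rw [Nat.eq_of_beq_eq_true hw2]
  have h4 := hL w hw
  rw [h3] at h4
  have h5 : lval x (2 * g) = x g := by
    rw [lval_even x (by omega), show 2 * g / 2 = g by omega]
  simpa [h5] using h4

/-- **The criterion.**  If the relators hold and the derivation kills every generator, the
generators are trivial. -/
theorem trivial_of_run (x : ℕ → G) (n : ℕ) (L : List (List ℕ))
    (ps : List (List (List ℕ × ℕ × Bool))) (h : killsAll n (run L ps) = true)
    (hL : ∀ w ∈ L, ev x w = 1) : ∀ g < n, x g = 1 :=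
  killsAll_sound x n _ h (run_sound x L ps hL)

end Pool.Agent.Lib_MP_55d5ef
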